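import Pool.Agent.V1156.Dgr.Main

/-! A dominant rational self-map of projective three-space with dynamical degree one whose
degree sequence is not comparable to `n ^ ℓ` for any `ℓ ≤ 3`. -/

set_option autoImplicit false

namespace Pool.Agent.Results.MP_55ef7c_ag.GrowthExceedsDimension

open Pool.Agent.V1156.Dgr

theorem result (K : Type*) [Field K] (h6 : (6 : K) ≠ 0) :
    ∃ (f : Fin (3 + 1) → MvPolynomial (Fin (3 + 1)) K) (e : ℕ) (deg : ℕ → ℕ),
      IsReduced f e ∧ Dominant f ∧ (∀ n d, IterateDegree f n d ↔ d = deg n) ∧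
      IsDynamicalDegree deg 1 ∧ (∀ k, (2 ^ k) ^ 4 ≤ 4 + 10 * deg (2 ^ k)) ∧
      ∀ ℓ ≤ 3, ¬ Comparable (fun n => (deg n : ℝ)) (fun n => (n : ℝ) ^ ℓ * 1 ^ n) :=
  main h6

end Pool.Agent.Results.MP_55ef7c_ag.GrowthExceedsDimension
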